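import Pool.Agent.Helper684.Koop.EndS

/-!
MP_759ce5_an, Q1: every proper image of the C*-algebra generated by the Koopman representation
of the Grigorchuk group is finite dimensional.

Idea of the proof. Let `S₀, S₁` be the isometries `(S_x f)(x w) = √2 f(w)` of `L²(∂T, μ)`, and
`S_v` their products over finite words; `ρ(g) S_v = S_{g v} ρ(g_v)`. Let `I` be a nonzero closed
ideal, `T` in `I` nonzero, and `T'` in the image of the group algebra close to `T`. Sections of the
finitely many group elements in `T'` are trivial at all words of length `n`, except near the two
ends of the level `n` Schreier graph. Cutting functions according to the distance to the ends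
(at all levels) shows that up to a factor `√2` the norm of `T'` is attained on operators
`V = ∑ η_v S_v` with `v` running over words where all sections are trivial, so that
`T' V` is again a scalar combination of the `S_u`. The group contains the elements acting as
`k = (ab)²` below a given vertex and trivially elsewhere, so with `Q` the spectral projection of
`ρ(k)` off the fixed vectors, the operators `S_w Q S_u*` are in the algebra, and multiplying `T` by
them on both sides one finds that the idempotent `S_w Q S_w*` is at distance less than one from
`I`, hence in `I`. So `I` contains `ρ(g) - 1` for all `g` in a subgroup of finite index.
-/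

namespace Pool.Agent.Results.MP_759ce5_an.JustInfinite

open Pool.Agent.Helper684.KoopS

/-- Let `CStarRho` be the norm closure of `ρ(ℂ[G])` in the bounded operators on `L²(∂T, μ)`, where
`G` is the Grigorchuk group and `ρ` its Koopman representation. The quotient of `CStarRho` by any
nonzero closed two-sided ideal is finite dimensional. -/
theorem result (I : Ideal CStarRho) [I.IsTwoSided] (hclosed : IsClosed (I : Set CStarRho))
    (hne : I ≠ ⊥) : FiniteDimensional ℂ (CStarRho ⧸ I) :=
  finiteDimensional_quotient' I hclosed hne

end Pool.Agent.Results.MP_759ce5_an.JustInfinite
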